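import Pool.Agent.W17.WK.Main
import Pool.Agent.W440.AK.P1
import Pool.Agent.W462.AK.DB
import Pool.Agent.W45.AK.UNI
import Pool.Agent.W52.AK.CNT
import Pool.Agent.W54.AK.JK
import Pool.Agent.W613.AK.GRP
import Pool.Agent.W681.AK.ABSJ
import Pool.Agent.W822.AK.SU
import Pool.Agent.W249.AK.TW
import Pool.Agent.W358.AK.EST
import Pool.Agent.W375.AK.CS
import Pool.Agent.W214.AK.RND
import Pool.Agent.W108.AK.MB

set_option autoImplicit false

/-!
The count of the points with `rad ≤ lam h + c₀` over an arbitrary number field.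
-/

namespace Pool.Agent.W17.WK

open NumberField IsDedekindDomain Finset Pool.Agent.H691R3 Pool.Agent.W223.AK

variable {K : Type} [Field K] [NumberField K]

theorem unif_ne {S : Finset (Pr K)} {w : Pr K → K} {C : ℝ} (hU : Unif S w C) :
    ∀ v, w v ≠ 0 := hU.ne

theorem est_all (S : Finset (Pr K)) (w : Pr K → K) (C : ℝ) (hU : Unif S w C) : StmtEST S := by
  have hP : StmtP1 S w := Pool.Agent.W440.AK.p1 hU Pool.Agent.W52.AK.omg
  have hT : StmtTW S w := Pool.Agent.W249.AK.tw hP Pool.Agent.W52.AK.cnt Pool.Agent.W52.AK.gcdsum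
    hU.ne
  have hJ : StmtJK S w := W54.AK.jk hU hT Pool.Agent.W681.AK.absj
    Pool.Agent.W613.AK.grp Pool.Agent.W214.AK.rnd Pool.Agent.W52.AK.cnt Pool.Agent.W52.AK.fac
  exact Pool.Agent.W358.AK.est hU hJ Pool.Agent.W52.AK.cnt Pool.Agent.W822.AK.su
    Pool.Agent.W375.AK.cs

theorem db_all (S : Finset (Pr K)) (w : Pr K → K) (C : ℝ) (hU : Unif S w C) : StmtDB S :=
  Pool.Agent.W462.AK.db hU Pool.Agent.W52.AK.cnt Pool.Agent.W52.AK.fac Pool.Agent.W822.AK.su

theorem stmtF (K : Type) [Field K] [NumberField K] (lam : ℝ) (h0 : 0 < lam)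
    (h1 : lam ≤ 28 / 29) : StmtF K lam (4 * lam / 7) :=
  finN lam (4 * lam / 7) h0.le (by positivity) Pool.Agent.W45.AK.uni est_all db_all
    Pool.Agent.W108.AK.mb (stmtC lam h0 h1)

end Pool.Agent.W17.WK
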