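import Pool.Agent.W17.WK.Fin

set_option autoImplicit false
set_option linter.unusedSectionVars false

/-!
Translation into heights and conductors of elements.
-/

namespace Pool.Agent.W17.WK

open NumberField IsDedekindDomain Finset Pool.Agent.H691R3 Pool.Agent.W223.AK Pool.Agent.W108.AK

variable {K : Type} [Field K] [NumberField K]

/-- the absolute logarithmic Weil height -/
noncomputable def height (x : K) : ℝ :=
  (1 / (Module.finrank ℚ K : ℝ)) *
    ((∑ w : InfinitePlace K, (w.mult : ℝ) * Real.log (max 1 (w x))) +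
      ∑ᶠ v : HeightOneSpectrum (RingOfIntegers K), Real.log (max 1 (FinitePlace.mk v x)))

/-- the conductor -/
noncomputable def cond (x : K) : ℝ :=
  (1 / (Module.finrank ℚ K : ℝ)) *
    (∑ᶠ v : HeightOneSpectrum (RingOfIntegers K),
      (if FinitePlace.mk v x < 1 then Real.log (Ideal.absNorm v.asIdeal : ℝ) else 0))

/-- the exceptional set -/
def exceptional (K : Type) [Field K] [NumberField K] (κ c B : ℝ) : Set K :=
  {x : K | x ≠ 0 ∧ x ≠ 1 ∧ Real.exp (height x) ≤ B ∧
    κ * (cond x + cond x⁻¹ + cond (x - 1)) ≤ height x + c}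

lemma rl_finsum (a : Idl K) (f : Pr K → Prop) [DecidablePred f] (h : ∀ v, a v ≠ 0 ↔ f v) :
    ∑ᶠ v : HeightOneSpectrum (RingOfIntegers K),
      (if f v then Real.log (Ideal.absNorm v.asIdeal : ℝ) else 0) = rl a := by
  classical
  unfold rl
  rw [finsum_eq_sum_of_support_subset (s := a.support)]
  · refine Finset.sum_congr rfl fun v hv => ?_
    rw [if_pos ((h v).mp (Finsupp.mem_support_iff.mp hv))]
    rfl
  · intro v hv
    rw [Function.mem_support] at hv
    by_contra hcon
    apply hv
    rw [if_neg]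
    intro h1
    exact hcon (by
      rw [Finset.mem_coe, Finsupp.mem_support_iff]
      exact (h v).mpr h1)

lemma isP_ne_iff {x : K} {P : Fin 3 → Idl K} (hP : IsP (∅ : Finset (Pr K)) x P) (l : Fin 3)
    (v : Pr K) : P l v ≠ 0 ↔ fv v (L l x) < max (fv v x) 1 := by
  constructor
  · exact fv_lt_of_ne hP
  · intro h h0
    have h1 := hP.val l v (by simp)
    rw [h0] at h1
    simp only [Nat.cast_zero, neg_zero, zpow_zero, mul_one] at h1
    rw [h1] at h
    exact lt_irrefl _ h

lemma fd_pos : (0 : ℝ) < (Module.finrank ℚ K : ℝ) := by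
  exact_mod_cast Module.finrank_pos

lemma ht_neg_eq (x : K) : ht (-x) = (Module.finrank ℚ K : ℝ) * height x := by
  unfold height ht hr aff
  rw [← mul_assoc, mul_one_div_cancel (fd_pos (K := K)).ne', one_mul]
  congr 1
  · refine Finset.sum_congr rfl fun w _ => ?_
    have h1 : w (-x) = w x := AbsoluteValue.map_neg w.1 x
    simp only [map_one]
    rw [max_comm, h1]
  · refine finsum_congr fun v => ?_
    simp only [map_one, AbsoluteValue.map_neg]
    rw [max_comm]
    rfl

lemma cond_sum {x : K} (hx0 : x ≠ 0) {P : Fin 3 → Idl K}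
    (hP : IsP (∅ : Finset (Pr K)) (-x) P) :
    (Module.finrank ℚ K : ℝ) * (cond x + cond x⁻¹ + cond (x - 1)) =
      rl (P 0) + rl (P 1) + rl (P 2) := by
  classical
  have e0 : ∀ v : Pr K, P 0 v ≠ 0 ↔ FinitePlace.mk v x < 1 := by
    intro v
    rw [isP_ne_iff hP 0 v, L_zero, AbsoluteValue.map_neg, lt_max_iff]
    constructor
    · rintro (h | h)
      · exact absurd h (lt_irrefl _)
      · exact h
    · intro h
      exact Or.inr h
  have e1 : ∀ v : Pr K, P 1 v ≠ 0 ↔ FinitePlace.mk v x⁻¹ < 1 := by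
    intro v
    rw [isP_ne_iff hP 1 v, L_one, AbsoluteValue.map_neg, map_one, lt_max_iff]
    have h0 : 0 < fv v x := (fv v).pos hx0
    have h1 : FinitePlace.mk v x⁻¹ = (fv v x)⁻¹ := by
      rw [← fv_apply]
      exact map_inv₀ (fv v) x
    rw [h1, inv_lt_one₀ h0]
    constructor
    · rintro (h | h)
      · exact h
      · exact absurd h (lt_irrefl _)
    · intro h
      exact Or.inl h
  have e2 : ∀ v : Pr K, P 2 v ≠ 0 ↔ FinitePlace.mk v (x - 1) < 1 := by
    intro v
    rw [isP_ne_iff hP 2 v, L_two, AbsoluteValue.map_neg]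
    have h1 : FinitePlace.mk v (x - 1) = fv v (-x + 1) := by
      rw [← fv_apply, ← AbsoluteValue.map_neg (fv v) (x - 1)]
      congr 1
      ring
    rw [h1]
    constructor
    · intro h
      by_contra hcon
      rw [not_lt] at hcon
      rcases le_or_gt (fv v x) 1 with h2 | h2
      · rw [max_eq_right h2] at h
        exact absurd h (not_lt.mpr hcon)
      · rw [max_eq_left h2.le] at h
        -- |x| > 1 forces |1 - x| = |x|
        have h3 := fv_na v (-x + 1) (-1)
        rw [AbsoluteValue.map_neg, map_one] at h3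
        have h4 : -x + 1 + -1 = -x := by ring
        rw [h4, AbsoluteValue.map_neg] at h3
        rcases le_max_iff.mp h3 with h5 | h5
        · exact absurd h (not_lt.mpr h5)
        · exact absurd h2 (not_lt.mpr h5)
    · intro h
      exact lt_max_of_lt_right h
  unfold cond
  have hd := fd_pos (K := K)
  rw [rl_finsum (P 0) _ e0, rl_finsum (P 1) _ e1, rl_finsum (P 2) _ e2]
  field_simp

theorem count_exc {κ e : ℝ} (hκ : 0 < κ) (he : 0 ≤ e) (hF : StmtF K (1 / κ) e) (c δ : ℝ)
    (hδ : 0 < δ) :
    ∃ C : ℝ, ∀ B : ℝ, 1 ≤ B → (exceptional K κ c B).Finite ∧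
      ((exceptional K κ c B).ncard : ℝ) ≤ C * B ^ ((Module.finrank ℚ K : ℝ) * e + δ) := by
  classical
  set d : ℝ := (Module.finrank ℚ K : ℝ) with hd
  have hdpos : 0 < d := fd_pos
  obtain ⟨C, hC, hmain⟩ := hF ∅ (d * c / κ) (δ / d) (div_pos hδ hdpos)
  refine ⟨C, fun B hB => ?_⟩
  have hB0 : 0 < B := by linarith
  have hlogB : 0 ≤ Real.log B := Real.log_nonneg hB
  have hbound : ∀ E : Finset K, (E : Set K) ⊆ exceptional K κ c B →
      (E.card : ℝ) ≤ C * B ^ (d * e + δ) := by
    intro E hE
    have hcard : (E.image fun x => -x).card = E.card :=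
      Finset.card_image_of_injective _ neg_injective
    have h1 := hmain (d * Real.log B) (E.image fun x => -x) (mul_nonneg hdpos.le hlogB) ?_
    · rw [hcard] at h1
      refine h1.trans (le_of_eq ?_)
      rw [Real.rpow_def_of_pos hB0]
      congr 2
      field_simp
    · intro y hy
      rw [Finset.mem_image] at hy
      obtain ⟨x, hx, rfl⟩ := hy
      obtain ⟨hx0, hx1, h3, h4⟩ := hE hx
      have hpt : Pt (-x) := by
        refine ⟨neg_ne_zero.mpr hx0, fun h => hx1 ?_⟩
        have h5 : x = 1 - (-x + 1) := by ring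
        rw [h5, h, sub_zero]
      obtain ⟨P, hP⟩ := exists_isP (∅ : Finset (Pr K)) hpt
      refine ⟨hpt, ?_, P, hP, ?_⟩
      · rw [ht_neg_eq]
        refine mul_le_mul_of_nonneg_left ?_ hdpos.le
        rw [Real.le_log_iff_exp_le hB0]
        exact h3
      · rw [← cond_sum hx0 hP, ht_neg_eq]
        have h5 : 1 / κ * (d * height x) + d * c / κ = d * ((height x + c) / κ) := by
          field_simp
        rw [← hd, h5]
        refine mul_le_mul_of_nonneg_left ?_ hdpos.le
        rw [le_div_iff₀ hκ]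
        linarith
  have hnn : 0 ≤ C * B ^ (d * e + δ) := by positivity
  have hfin : (exceptional K κ c B).Finite := by
    by_contra hinf
    obtain ⟨E, hEV, hEc⟩ := Set.Infinite.exists_subset_card_eq hinf
      (⌊C * B ^ (d * e + δ)⌋₊ + 1)
    have h1 := hbound E hEV
    have h2 := Nat.lt_floor_add_one (C * B ^ (d * e + δ))
    rw [hEc] at h1
    push_cast at h1
    linarith
  refine ⟨hfin, ?_⟩
  rw [Set.ncard_eq_toFinset_card _ hfin]
  exact hbound hfin.toFinset (by rw [Set.Finite.coe_toFinset])

end Pool.Agent.W17.WK
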