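import Mathlib

set_option autoImplicit false

/-!
The numerical certificate: one of the three bounds for a cell is always good.
-/

namespace Pool.Agent.W17.WK

open Finset

/-- total of `v l` over the classes in `F` -/
noncomputable def tot {n : ℕ} (v : Fin 3 → Option (Fin n) → ℝ) (l : Fin 3)
    (F : Finset (Option (Fin n))) : ℝ := ∑ i ∈ F, v l i

/-- the constraints of a cell -/
structure Poly (n : ℕ) (lam X η : ℝ) (v w : Fin 3 → Option (Fin n) → ℝ) (s : Fin 3 → ℝ) :
    Prop where
  v_nn : ∀ l i, 0 ≤ v l i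
  w_eq : ∀ l (i : Fin n), w l (some i) = ((i : ℕ) + 1 : ℝ) * v l (some i)
  w_tail : ∀ l, ((n : ℝ) + 1) * v l none ≤ w l none
  s_ge : ∀ l, -η ≤ s l
  sum : ∀ l, |tot w l univ + s l - X| ≤ η
  cost : tot v 0 univ + tot v 1 univ + tot v 2 univ ≤ lam * X + η

/-- one of the three bounds is good -/
def StmtC (lam e : ℝ) : Prop :=
  ∃ (n₀ : ℕ) (C : ℝ), 0 ≤ C ∧ ∀ n : ℕ, n₀ ≤ n → ∀ (X η : ℝ)
    (v w : Fin 3 → Option (Fin n) → ℝ) (s : Fin 3 → ℝ), 0 ≤ X → 0 ≤ η → Poly n lam X η v w s →
    (∃ p q r : Fin 3, p ≠ q ∧ q ≠ r ∧ p ≠ r ∧ tot v p univ + tot v q univ ≤ e * X + C * η) ∨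
    (∃ (p q r : Fin 3) (F : Finset (Option (Fin n))), p ≠ q ∧ q ≠ r ∧ p ≠ r ∧
      tot v r F + 1 / 2 * (tot v p univ + max 0 (3 / 2 * tot v p univ - (tot w r F + s r))) +
        1 / 2 * (tot v q univ + max 0 (3 / 2 * tot v q univ - (tot w r F + s r))) ≤
        e * X + C * η) ∨
    (∃ (p q r : Fin 3) (i : Fin n), p ≠ q ∧ q ≠ r ∧ p ≠ r ∧ 1 ≤ (i : ℕ) ∧
      tot v p {some i}ᶜ + tot v q univ ≤ e * X + C * η ∧
      (tot v p {some i}ᶜ + tot v q univ) / 2 + tot v r univ ≤ e * X + C * η)

variable {n : ℕ}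

theorem tot_nonneg (v : Fin 3 → Option (Fin n) → ℝ) (hv : ∀ j i, 0 ≤ v j i) (j : Fin 3)
    (F : Finset (Option (Fin n))) : 0 ≤ tot v j F :=
  Finset.sum_nonneg fun i _ => hv j i

theorem tot_compl (v : Fin 3 → Option (Fin n) → ℝ) (j : Fin 3) (F : Finset (Option (Fin n))) :
    tot v j Fᶜ = tot v j univ - tot v j F := by
  have := Finset.sum_add_sum_compl F (fun i => v j i)
  unfold tot
  linarith

theorem tot_single (v : Fin 3 → Option (Fin n) → ℝ) (j : Fin 3) (i : Option (Fin n)) :
    tot v j {i} = v j i := by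
  unfold tot
  simp

theorem exists_part (v : Fin 3 → Option (Fin n) → ℝ) (hv : ∀ j i, 0 ≤ v j i) (r : Fin 3)
    (hpos : 0 < tot v r univ) (h : ∀ i, v r i ≤ 2 / 3 * tot v r univ) :
    ∃ F : Finset (Option (Fin n)), 1 / 3 * tot v r univ ≤ tot v r F ∧
      tot v r F ≤ 2 / 3 * tot v r univ := by
  classical
  by_cases h1 : ∃ i, 1 / 3 * tot v r univ ≤ v r i
  · obtain ⟨i, hi⟩ := h1
    exact ⟨{i}, by rwa [tot_single], by rw [tot_single]; exact h i⟩
  push Not at h1
  obtain ⟨F, hF, hmax⟩ := Finset.exists_max_image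
    ((univ : Finset (Finset (Option (Fin n)))).filter fun F => tot v r F ≤ 2 / 3 * tot v r univ)
    (fun F => tot v r F) ⟨∅, by
      simp only [mem_filter, mem_univ, true_and]
      have h2 : tot v r ∅ = 0 := by simp [tot]
      rw [h2]
      linarith⟩
  rw [mem_filter] at hF
  refine ⟨F, ?_, hF.2⟩
  by_contra hcon
  push Not at hcon
  have h2 : ∃ i, i ∉ F ∧ 0 < v r i := by
    by_contra h3
    push Not at h3
    have h4 : tot v r Fᶜ ≤ 0 := by
      unfold tot
      exact Finset.sum_nonpos fun i hi => h3 i (by simpa using hi)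
    rw [tot_compl] at h4
    linarith
  obtain ⟨i, hiF, hi⟩ := h2
  have h5 : tot v r (insert i F) = v r i + tot v r F := by
    unfold tot
    exact Finset.sum_insert hiF
  have h6 := hmax (insert i F) (by
    rw [mem_filter]
    refine ⟨mem_univ _, ?_⟩
    rw [h5]
    have := h1 i
    linarith)
  simp only [h5] at h6
  linarith

theorem w_ge {lam X η : ℝ} {v w : Fin 3 → Option (Fin n) → ℝ} {s : Fin 3 → ℝ}
    (hP : Poly n lam X η v w s) (j : Fin 3) (i : Option (Fin n)) : v j i ≤ w j i := by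
  have h0 := hP.v_nn j i
  rcases i with _ | i
  · have h1 := hP.w_tail j
    have : (0 : ℝ) ≤ (n : ℝ) := Nat.cast_nonneg _
    nlinarith
  · rw [hP.w_eq j i]
    have : (0 : ℝ) ≤ ((i : ℕ) : ℝ) := Nat.cast_nonneg _
    nlinarith

theorem core (lam : ℝ) (hl0 : 0 < lam) (hl1 : lam ≤ 28 / 29) (hn : 11 / lam ≤ (n : ℝ))
    (X η : ℝ) (hη : 0 ≤ η) (hX : 100 * η < X) (v w : Fin 3 → Option (Fin n) → ℝ) (s : Fin 3 → ℝ)
    (hP : Poly n lam X η v w s)
    (p q r : Fin 3) (hpq : p ≠ q) (hqr : q ≠ r) (hpr : p ≠ r)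
    (hsum : tot v p univ + tot v q univ + tot v r univ ≤ lam * X + η)
    (h1 : tot v p univ ≤ tot v q univ) (h2 : tot v p univ ≤ tot v r univ)
    (hT1 : 4 * lam / 7 * X + 50 * η < tot v p univ + tot v q univ)
    (hT2 : 4 * lam / 7 * X + 50 * η < tot v p univ + tot v r univ)
    (hT3 : 4 * lam / 7 * X + 50 * η < tot v q univ + tot v r univ)
    (hE : ∀ F : Finset (Option (Fin n)), 4 * lam / 7 * X + 50 * η <
      tot v r F + 1 / 2 * (tot v p univ + max 0 (3 / 2 * tot v p univ - (tot w r F + s r))) +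
        1 / 2 * (tot v q univ + max 0 (3 / 2 * tot v q univ - (tot w r F + s r))))
    (hD : ∀ i : Fin n, 1 ≤ (i : ℕ) →
      tot v r {some i}ᶜ + tot v q univ ≤ 4 * lam / 7 * X + 50 * η →
      4 * lam / 7 * X + 50 * η < (tot v r {some i}ᶜ + tot v q univ) / 2 + tot v p univ) :
    False := by
  have hv := hP.v_nn
  have hw : ∀ j i, 0 ≤ w j i := fun j i => (hP.v_nn j i).trans (w_ge hP j i)
  have hVp : 0 ≤ tot v p univ := tot_nonneg v hv p univ
  have hVq : 0 ≤ tot v q univ := tot_nonneg v hv q univ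
  have hVr : 0 ≤ tot v r univ := tot_nonneg v hv r univ
  have hX0 : 0 < X := by linarith
  have hs := hP.s_ge r
  have hWs := abs_le.mp (hP.sum r)
  obtain ⟨P, hPd⟩ : ∃ P, P = tot v p univ := ⟨_, rfl⟩
  obtain ⟨Q, hQd⟩ : ∃ Q, Q = tot v q univ := ⟨_, rfl⟩
  obtain ⟨R, hRd⟩ : ∃ R, R = tot v r univ := ⟨_, rfl⟩
  obtain ⟨W, hWd⟩ : ∃ W, W = tot w r univ := ⟨_, rfl⟩
  obtain ⟨t, htd⟩ : ∃ t, t = s r := ⟨_, rfl⟩
  obtain ⟨L, hL⟩ : ∃ L, L = lam * X := ⟨_, rfl⟩
  have hL1 : L ≤ 28 / 29 * X := by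
    rw [hL]
    exact mul_le_mul_of_nonneg_right hl1 hX0.le
  have hL0 : 0 < L := by rw [hL]; positivity
  have e47 : 4 * lam / 7 * X = 4 / 7 * L := by rw [hL]; ring
  rw [e47] at hT1 hT2 hT3
  simp only [e47] at hE hD
  rw [← hPd, ← hQd, ← hRd, ← hL] at hsum
  rw [← hPd, ← hQd] at h1 hT1
  rw [← hPd, ← hRd] at h2 hT2
  rw [← hQd, ← hRd] at hT3
  rw [← hWd, ← htd] at hWs
  rw [← htd] at hs
  rw [← hPd] at hVp
  rw [← hQd] at hVq
  rw [← hRd] at hVr
  simp only [← hPd, ← hQd, ← htd] at hE hD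
  obtain ⟨hW1, hW2⟩ := hWs
  -- averaging
  have hi : ∀ F : Finset (Option (Fin n)), tot w r F + t < 3 / 2 * Q →
      W - tot w r F + t < 3 / 2 * Q → False := by
    intro F a1 a2
    have e1 := hE F
    have e2 := hE Fᶜ
    rw [tot_compl v, tot_compl w, ← hRd, ← hWd] at e2
    obtain ⟨x, hx⟩ : ∃ x, x = tot w r F + t := ⟨_, rfl⟩
    obtain ⟨y, hy⟩ : ∃ y, y = W - tot w r F + t := ⟨_, rfl⟩
    rw [← hx] at a1 e1
    rw [← hy] at a2 e2
    have hxy : X - 2 * η ≤ x + y := by rw [hx, hy]; linarith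
    rw [max_eq_right (show 0 ≤ 3 / 2 * Q - x by linarith)] at e1
    rw [max_eq_right (show 0 ≤ 3 / 2 * Q - y by linarith)] at e2
    rcases le_total (3 / 2 * P - x) 0 with c1 | c1
    · rw [max_eq_left c1] at e1
      rcases le_total (3 / 2 * P - y) 0 with c2 | c2
      · rw [max_eq_left c2] at e2
        linarith
      · rw [max_eq_right c2] at e2
        linarith
    · rw [max_eq_right c1] at e1
      rcases le_total (3 / 2 * P - y) 0 with c2 | c2
      · rw [max_eq_left c2] at e2
        linarith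
      · linarith
  -- no loss
  have hii : ∀ F : Finset (Option (Fin n)), 3 / 2 * Q ≤ tot w r F + t →
      4 / 7 * L + 50 * η < tot v r F + 1 / 2 * (P + Q) := by
    intro F a1
    have e1 := hE F
    rw [max_eq_left (show 3 / 2 * P - (tot w r F + t) ≤ 0 by linarith),
      max_eq_left (show 3 / 2 * Q - (tot w r F + t) ≤ 0 by linarith)] at e1
    linarith
  have hiii : ∀ F : Finset (Option (Fin n)), 3 / 2 * Q ≤ W - tot w r F + t →
      4 / 7 * L + 50 * η < R - tot v r F + 1 / 2 * (P + Q) := by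
    intro F a1
    have e1 := hii Fᶜ (by rw [tot_compl w, ← hWd]; exact a1)
    rw [tot_compl v, ← hRd] at e1
    exact e1
  by_cases hbig : ∃ i, 2 / 3 * R < v r i
  · obtain ⟨i, hi'⟩ := hbig
    have hMR : v r i ≤ R := by
      rw [hRd]
      unfold tot
      exact Finset.single_le_sum (fun i _ => hv r i) (mem_univ _)
    rcases lt_or_ge (W - tot w r {i} + t) (3 / 2 * Q) with c1 | c1
    · rcases lt_or_ge (tot w r {i} + t) (3 / 2 * Q) with c2 | c2
      · exact hi {i} c2 c1
      · have e1 := hii {i} c2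
        rw [tot_single] at e1
        rw [tot_single] at c1 c2
        rcases i with _ | i
        · have hn0 : (0 : ℝ) < (n : ℝ) + 1 := by positivity
          have e5 := hP.w_tail r
          have e6 : w r none ≤ W := by
            rw [hWd]
            unfold tot
            exact Finset.single_le_sum (fun i _ => hw r i) (mem_univ _)
          have e7 : 11 * X ≤ ((n : ℝ) + 1) * L := by
            rw [div_le_iff₀ hl0] at hn
            rw [hL]
            nlinarith
          have e8 : 2 / 7 * L ≤ R := by linarith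
          have e9 : 4 / 21 * L ≤ v r none := by linarith
          have e10 := mul_le_mul_of_nonneg_left e9 hn0.le
          nlinarith
        · by_cases hi0 : (i : ℕ) = 0
          · have e2 := hP.w_eq r i
            rw [hi0] at e2
            simp only [Nat.cast_zero, zero_add, one_mul] at e2
            have e3 := hE {some i}ᶜ
            rw [tot_compl v, tot_compl w, ← hRd, ← hWd, tot_single, tot_single, e2] at e3
            rw [e2] at c1 c2
            rw [max_eq_right (show 0 ≤ 3 / 2 * Q - (W - v r (some i) + t) by linarith),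
              max_eq_left (show 3 / 2 * P - (W - v r (some i) + t) ≤ 0 by linarith)] at e3
            linarith
          · have e2 := hD i (by omega)
            rw [tot_compl v, tot_single, ← hRd] at e2
            have e3 := e2 (by linarith)
            linarith
    · have e1 := hiii {i} c1
      rw [tot_single] at e1
      linarith
  · push Not at hbig
    rw [hRd] at hbig
    obtain ⟨F, hF1, hF2⟩ := exists_part v hv r (by rw [← hRd]; linarith) hbig
    rw [← hRd] at hF1 hF2
    rcases lt_or_ge (W - tot w r F + t) (3 / 2 * Q) with c1 | c1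
    · rcases lt_or_ge (tot w r F + t) (3 / 2 * Q) with c2 | c2
      · exact hi F c2 c1
      · have e1 := hii F c2
        linarith
    · have e1 := hiii F c1
      linarith

theorem stmtC (lam : ℝ) (hl0 : 0 < lam) (hl1 : lam ≤ 28 / 29) : StmtC lam (4 * lam / 7) := by
  obtain ⟨n₀, hn₀⟩ := exists_nat_ge (11 / lam)
  refine ⟨n₀, 50, by norm_num, ?_⟩
  intro n hn X η v w s hX hη hP
  have hn' : 11 / lam ≤ (n : ℝ) := hn₀.trans (by exact_mod_cast hn)
  by_contra hcon
  push Not at hcon
  obtain ⟨hT, hE, hD⟩ := hcon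
  have htot := hP.cost
  rcases le_or_gt X (100 * η) with hXη | hXη
  · have h1 := hT 0 1 2 (by decide) (by decide) (by decide)
    have h2 := tot_nonneg v hP.v_nn 2 univ
    have h3 : lam * X ≤ 100 * η := by nlinarith
    linarith
  have key : ∀ p q r : Fin 3, p ≠ q → q ≠ r → p ≠ r →
      tot v p univ + tot v q univ + tot v r univ ≤ lam * X + η →
      tot v p univ ≤ tot v q univ → tot v p univ ≤ tot v r univ → False := by
    intro p q r hpq hqr hpr hs a1 a2
    exact core lam hl0 hl1 hn' X η hη hXη v w s hP p q r hpq hqr hpr hs a1 a2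
      (hT p q r hpq hqr hpr) (hT p r q hpr hqr.symm hpq) (hT q r p hqr hpr.symm hpq.symm)
      (fun F => hE p q r F hpq hqr hpr)
      (fun i b1 b3 => hD r q p i hqr.symm hpq.symm hpr.symm b1 b3)
  rcases le_total (tot v 1 univ) (tot v 2 univ) with c | c
  · rcases le_total (tot v 0 univ) (tot v 1 univ) with c' | c'
    · exact key 0 1 2 (by decide) (by decide) (by decide) (by linarith) c' (by linarith)
    · exact key 1 0 2 (by decide) (by decide) (by decide) (by linarith) c' c
  · rcases le_total (tot v 0 univ) (tot v 2 univ) with c' | c'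
    · exact key 0 2 1 (by decide) (by decide) (by decide) (by linarith) c' (by linarith)
    · exact key 2 0 1 (by decide) (by decide) (by decide) (by linarith) c' c

end Pool.Agent.W17.WK
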