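import Pool.Agent.W108.AK.Cls
import Pool.Agent.W17.WK.Cert

set_option autoImplicit false
set_option linter.unusedSectionVars false

/-!
The bound for one cell, with arbitrarily many exact classes.
-/

namespace Pool.Agent.W17.WK

open NumberField IsDedekindDomain Finset Pool.Agent.H691R3 Pool.Agent.W223.AK Pool.Agent.W108.AK

variable {K : Type} [Field K] [NumberField K]

/-- the points of a cell are close -/
structure CloseN (S : Finset (Pr K)) (n : ℕ) (P : K → Fin 3 → Idl K) (x y : K) : Prop where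
  hht : |ht x - ht y| ≤ 1
  one : ∀ l, ∀ i : Fin n,
    |rl (ex (P x l) {(i : ℕ) + 1}) - rl (ex (P y l) {(i : ℕ) + 1})| ≤ 1
  tail : ∀ l, |rl (ex (P x l) {m | n < m}) - rl (ex (P y l) {m | n < m})| ≤ 1
  tlen : ∀ l, |len (ex (P x l) {m | n < m}) - len (ex (P y l) {m | n < m})| ≤ 1
  hlm : ∀ l, ∀ v ∈ Spl S, |lm v l x - lm v l y| ≤ 1

lemma cn_disj (n : ℕ) (i j : Option (Fin n)) (hij : i ≠ j) : Disjoint (cn n i) (cn n j) := by
  rw [Set.disjoint_left]
  intro m hi hj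
  rcases i with _ | i
  · rcases j with _ | j
    · exact hij rfl
    · simp only [cn, Option.elim, Set.mem_ofPred_eq, Set.mem_singleton_iff] at hi hj
      omega
  · rcases j with _ | j
    · simp only [cn, Option.elim, Set.mem_ofPred_eq, Set.mem_singleton_iff] at hi hj
      omega
    · simp only [cn, Option.elim, Set.mem_singleton_iff] at hi hj
      apply hij
      congr 1
      ext
      omega

lemma mem_cn {n m : ℕ} (hm : 1 ≤ m) : ∃ i : Option (Fin n), m ∈ cn n i := by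
  by_cases h : n < m
  · exact ⟨none, h⟩
  · refine ⟨some ⟨m - 1, by omega⟩, ?_⟩
    simp only [cn, Option.elim, Set.mem_singleton_iff]
    omega

/-- the union of the classes in `I` -/
def Unn (n : ℕ) (I : Finset (Option (Fin n))) : Set ℕ := {m | ∃ i ∈ I, m ∈ cn n i}

lemma rl_Unn (n : ℕ) (a : Idl K) (I : Finset (Option (Fin n))) :
    rl (ex a (Unn n I)) = ∑ i ∈ I, rl (ex a (cn n i)) :=
  rl_union a I (cn n) fun i _ j _ h => cn_disj n i j h

lemma len_Unn (n : ℕ) (a : Idl K) (I : Finset (Option (Fin n))) :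
    len (ex a (Unn n I)) = ∑ i ∈ I, len (ex a (cn n i)) :=
  len_union a I (cn n) fun i _ j _ h => cn_disj n i j h

lemma exn_univ (n : ℕ) (a : Idl K) : ex a (Unn n univ) = a := by
  refine ex_all a _ fun m hm => ?_
  obtain ⟨i, hi⟩ := mem_cn (n := n) hm
  exact ⟨i, Finset.mem_univ _, hi⟩

lemma rln_compl (n : ℕ) (a : Idl K) (i : Fin n) :
    rl (ex a {m | m ≠ (i : ℕ) + 1}) = rl (ex a (Unn n {some i}ᶜ)) := by
  congr 1
  classical
  ext v
  rw [Pool.Agent.W223.AK.ex_apply, Pool.Agent.W223.AK.ex_apply]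
  by_cases h0 : a v = 0
  · simp [h0]
  · have h1 : a v ∈ {m | m ≠ (i : ℕ) + 1} ↔ a v ∈ Unn n {some i}ᶜ := by
      unfold Unn
      rw [Set.mem_ofPred_eq, Set.mem_ofPred_eq]
      constructor
      · intro h
        obtain ⟨j, hj⟩ := mem_cn (n := n) (m := a v) (by omega)
        refine ⟨j, ?_, hj⟩
        rw [Finset.mem_compl, Finset.mem_singleton]
        rintro rfl
        simp only [cn, Option.elim, Set.mem_singleton_iff] at hj
        exact h hj
      · rintro ⟨j, hj, hj1⟩ h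
        rw [Finset.mem_compl, Finset.mem_singleton] at hj
        have h2 : a v ∈ cn n (some i) := by
          simp only [cn, Option.elim, Set.mem_singleton_iff]
          exact h
        exact Set.disjoint_left.mp (cn_disj n j (some i) hj) hj1 h2
    simp only [h1]

section CloseLemmas

variable {S : Finset (Pr K)} {n : ℕ} {P : K → Fin 3 → Idl K} {x y : K}

lemma closeN_rl_cn (h : CloseN S n P x y) (l : Fin 3) (i : Option (Fin n)) :
    |rl (ex (P x l) (cn n i)) - rl (ex (P y l) (cn n i))| ≤ 1 := by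
  rcases i with _ | i
  · exact h.tail l
  · exact h.one l i

lemma closeN_len_cn (h : CloseN S n P x y) (l : Fin 3) (i : Option (Fin n)) :
    |len (ex (P x l) (cn n i)) - len (ex (P y l) (cn n i))| ≤ n + 1 := by
  rcases i with _ | i
  · refine (h.tlen l).trans ?_
    have : (0 : ℝ) ≤ n := Nat.cast_nonneg n
    linarith
  · show |len (ex (P x l) {(i : ℕ) + 1}) - len (ex (P y l) {(i : ℕ) + 1})| ≤ n + 1
    rw [len_single, len_single, ← mul_sub, abs_mul, Nat.abs_cast]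
    have h2 : (((i : ℕ) + 1 : ℕ) : ℝ) ≤ n := by exact_mod_cast i.2
    have h3 := abs_nonneg (rl (ex (P x l) {(i : ℕ) + 1}) - rl (ex (P y l) {(i : ℕ) + 1}))
    have h1 := h.one l i
    have h4 : (0 : ℝ) ≤ (((i : ℕ) + 1 : ℕ) : ℝ) := Nat.cast_nonneg _
    nlinarith

lemma card_opt (I : Finset (Option (Fin n))) : (I.card : ℝ) ≤ n + 1 := by
  have := Finset.card_le_univ I
  rw [Fintype.card_option, Fintype.card_fin] at this
  exact_mod_cast this

lemma closeN_rl_Un (h : CloseN S n P x y) (l : Fin 3) (I : Finset (Option (Fin n))) :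
    |rl (ex (P x l) (Unn n I)) - rl (ex (P y l) (Unn n I))| ≤ n + 1 := by
  rw [rl_Unn, rl_Unn, ← Finset.sum_sub_distrib]
  refine (Finset.abs_sum_le_sum_abs _ _).trans ?_
  refine (Finset.sum_le_sum fun i _ => closeN_rl_cn h l i).trans ?_
  rw [Finset.sum_const, nsmul_eq_mul, mul_one]
  exact card_opt I

lemma closeN_len_Un (h : CloseN S n P x y) (l : Fin 3) (I : Finset (Option (Fin n))) :
    |len (ex (P x l) (Unn n I)) - len (ex (P y l) (Unn n I))| ≤ (n + 1) * (n + 1) := by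
  rw [len_Unn, len_Unn, ← Finset.sum_sub_distrib]
  refine (Finset.abs_sum_le_sum_abs _ _).trans ?_
  refine (Finset.sum_le_sum fun i _ => closeN_len_cn h l i).trans ?_
  rw [Finset.sum_const, nsmul_eq_mul]
  exact mul_le_mul_of_nonneg_right (card_opt I) (by positivity)

lemma closeN_sum_lm (h : CloseN S n P x y) (l : Fin 3) :
    |∑ v ∈ Spl S, lm v l x - ∑ v ∈ Spl S, lm v l y| ≤ (Spl S).card := by
  rw [← Finset.sum_sub_distrib]
  refine (Finset.abs_sum_le_sum_abs _ _).trans ?_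
  refine (Finset.sum_le_sum fun v hv => h.hlm l v hv).trans (le_of_eq ?_)
  rw [Finset.sum_const, nsmul_eq_mul, mul_one]

end CloseLemmas

lemma tot_v_eq (n : ℕ) (Q : Fin 3 → Idl K) (l : Fin 3) (I : Finset (Option (Fin n))) :
    tot (fun l i => rl (ex (Q l) (cn n i))) l I = rl (ex (Q l) (Unn n I)) := by
  rw [rl_Unn]; rfl

lemma tot_w_eq (n : ℕ) (Q : Fin 3 → Idl K) (l : Fin 3) (I : Finset (Option (Fin n))) :
    tot (fun l i => len (ex (Q l) (cn n i))) l I = len (ex (Q l) (Unn n I)) := by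
  rw [len_Unn]; rfl

/-- the data of a cell -/
structure IsCellN (S : Finset (Pr K)) (n : ℕ) (lam c₀ Y : ℝ) (E : Finset K)
    (P : K → Fin 3 → Idl K) (x₀ : K) : Prop where
  mem : x₀ ∈ E
  hY : ht x₀ + 1 = Y
  pt : ∀ x ∈ E, Pt x ∧ IsP S x (P x) ∧ ht x ≤ Y
  rad : rl (P x₀ 0) + rl (P x₀ 1) + rl (P x₀ 2) ≤ lam * ht x₀ + c₀
  close : ∀ x ∈ E, CloseN S n P x x₀

section Cases

variable {S : Finset (Pr K)} {n : ℕ} {lam c₀ Y : ℝ} {E : Finset K} {P : K → Fin 3 → Idl K}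
  {x₀ : K}

lemma IsCellN.Y_nonneg (h : IsCellN S n lam c₀ Y E P x₀) : 0 ≤ Y := by
  have := ht_nonneg x₀
  have := h.hY
  linarith

lemma IsCellN.rl_le (h : IsCellN S n lam c₀ Y E P x₀) {x : K} (hx : x ∈ E) (l : Fin 3)
    (I : Finset (Option (Fin n))) :
    rl (ex (P x l) (Unn n I)) ≤ rl (ex (P x₀ l) (Unn n I)) + (n + 1) := by
  have := (abs_le.mp (closeN_rl_Un (h.close x hx) l I)).2
  linarith

lemma IsCellN.rl_le' (h : IsCellN S n lam c₀ Y E P x₀) {x : K} (hx : x ∈ E) (l : Fin 3) :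
    rl (P x l) ≤ rl (P x₀ l) + (n + 1) := by
  have := h.rl_le hx l univ
  rwa [exn_univ, exn_univ] at this

lemma IsCellN.le_len (h : IsCellN S n lam c₀ Y E P x₀) {x : K} (hx : x ∈ E) (l : Fin 3)
    (I : Finset (Option (Fin n))) :
    len (ex (P x₀ l) (Unn n I)) - (n + 1) * (n + 1) ≤ len (ex (P x l) (Unn n I)) := by
  have := (abs_le.mp (closeN_len_Un (h.close x hx) l I)).1
  linarith

/-- the trivial bound, from the gap principle -/
lemma caseN_T (h : IsCellN S n lam c₀ Y E P x₀) {ε D : ℝ} (hD : 0 ≤ D)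
    (hM : ∀ (X : ℝ) (E : Finset K) (P : K → Fin 3 → Idl K) (p q r : Fin 3) (I : Fin 3 → Set ℕ)
      (c g : Fin 3 → ℝ),
    0 ≤ X → (∀ x ∈ E, Pt x ∧ IsP S x (P x) ∧ ht x ≤ X) → p ≠ q → q ≠ r → p ≠ r →
    (∀ m, 1 ≤ m → m ∉ I p → 1 ∣ m) → (∀ m, 1 ≤ m → m ∉ I q → 1 ∣ m) →
    (∀ x ∈ E, ∀ l, rl (ex (P x l) (I l)) ≤ c l) →
    (∀ x ∈ E, ∀ l, g l ≤ len (ex (P x l) (I l)) + ∑ v ∈ Spl S, lm v l x) →
    (E.card : ℝ) ≤ D * Real.exp (ε * X + (c p + c q + c r) +
      max 0 (2 * X / (1 : ℕ) - (g p + g q) / (1 : ℕ) - g r)))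
    {p q r : Fin 3} (hpq : p ≠ q) (hqr : q ≠ r) (hpr : p ≠ r) {R : ℝ}
    (hR : rl (P x₀ p) + rl (P x₀ q) ≤ R) :
    (E.card : ℝ) ≤ D * Real.exp (ε * Y + R + 2 * (n + 1) + (4 + cS S)) := by
  classical
  have hhY := h.hY
  have hcS := cS_nonneg S
  have hmain := hM Y E P p q r (fun l => if l = r then ∅ else Set.univ)
    (fun l => if l = r then 0 else rl (P x₀ l) + (n + 1))
    (fun l => if l = r then -cS S else ht x₀ - 1)
    h.Y_nonneg h.pt hpq hqr hpr (fun m _ _ => one_dvd m) (fun m _ _ => one_dvd m)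
    (fun x hx l => by
      by_cases hl : l = r
      · simp only [hl, if_true]
        rw [rl_ex_sum]
        simp
      · simp only [hl, if_false]
        have h1 : ex (P x l) Set.univ = P x l := ex_all _ _ fun m _ => Set.mem_univ m
        rw [h1]
        exact h.rl_le' hx l)
    (fun x hx l => by
      obtain ⟨hpt, hPx, _⟩ := h.pt x hx
      by_cases hl : l = r
      · simp only [hl, if_true]
        have h1 := sum_lm_ge (S := S) hpt r
        have h2 := len_nonneg (ex (P x r) (∅ : Set ℕ))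
        linarith
      · simp only [hl, if_false]
        have h1 : ex (P x l) Set.univ = P x l := ex_all _ _ fun m _ => Set.mem_univ m
        rw [h1, sum_lm hpt hPx l]
        have h2 := (abs_le.mp (h.close x hx).hht).1
        linarith)
  refine hmain.trans (mul_le_mul_of_nonneg_left (Real.exp_le_exp.mpr ?_) hD)
  simp only [hpr, hqr, if_false, if_true, Nat.cast_one, div_one]
  have h3 : max 0 (2 * Y - (ht x₀ - 1 + (ht x₀ - 1)) - -cS S) ≤ 4 + cS S :=
    max_le (by linarith) (by linarith)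
  linarith

/-- the case of the difference bound -/
lemma caseN_D (h : IsCellN S n lam c₀ Y E P x₀) {i : Fin n} {ε D : ℝ}
    (hD : 0 ≤ D)
    (hDB : ∀ (X : ℝ) (E : Finset K) (P : K → Fin 3 → Idl K) (p q r : Fin 3) (c₁ c₂ c₃ : ℝ),
    0 ≤ X → (∀ x ∈ E, Pt x ∧ IsP S x (P x) ∧ ht x ≤ X) → p ≠ q → q ≠ r → p ≠ r →
    (∀ x ∈ E, rl (ex (P x p) {m | m ≠ (i : ℕ) + 1}) ≤ c₁) →
    (∀ x ∈ E, rl (P x q) ≤ c₂) → (∀ x ∈ E, rl (P x r) ≤ c₃) →
    (E.card : ℝ) ≤ D * Real.exp (ε * X) *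
      (Real.exp (c₁ + c₂) + Real.exp ((c₁ + c₂) / 2 + c₃)))
    {p q r : Fin 3} (hpq : p ≠ q) (hqr : q ≠ r) (hpr : p ≠ r) {R : ℝ}
    (hR1 : rl (ex (P x₀ p) (Unn n {some i}ᶜ)) + rl (P x₀ q) ≤ R)
    (hR2 : (rl (ex (P x₀ p) (Unn n {some i}ᶜ)) + rl (P x₀ q)) / 2 + rl (P x₀ r) ≤ R) :
    (E.card : ℝ) ≤ 2 * D * Real.exp (ε * Y + R + 2 * (n + 1)) := by
  have hmain := hDB Y E P p q r (rl (ex (P x₀ p) (Unn n {some i}ᶜ)) + (n + 1))
    (rl (P x₀ q) + (n + 1)) (rl (P x₀ r) + (n + 1))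
    h.Y_nonneg h.pt hpq hqr hpr
    (fun x hx => by rw [rln_compl n _ i]; exact h.rl_le hx p _)
    (fun x hx => h.rl_le' hx q)
    (fun x hx => h.rl_le' hx r)
  refine hmain.trans ?_
  have h1 : Real.exp (rl (ex (P x₀ p) (Unn n {some i}ᶜ)) + (n + 1) +
      (rl (P x₀ q) + (n + 1))) ≤ Real.exp (R + 2 * (n + 1)) :=
    Real.exp_le_exp.mpr (by linarith)
  have h2 : Real.exp ((rl (ex (P x₀ p) (Unn n {some i}ᶜ)) + (n + 1) +
      (rl (P x₀ q) + (n + 1))) / 2 +
      (rl (P x₀ r) + (n + 1))) ≤ Real.exp (R + 2 * (n + 1)) :=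
    Real.exp_le_exp.mpr (by linarith)
  calc _ ≤ D * Real.exp (ε * Y) * (Real.exp (R + 2 * (n + 1)) +
        Real.exp (R + 2 * (n + 1))) :=
        mul_le_mul_of_nonneg_left (add_le_add h1 h2) (by positivity)
    _ = _ := by
        rw [add_assoc, Real.exp_add (ε * Y)]
        ring

/-- the case of the energy bound -/
lemma caseN_S (h : IsCellN S n lam c₀ Y E P x₀) {ε D : ℝ} (hD : 0 ≤ D)
    (hEST : ∀ (X : ℝ) (E : Finset K) (P : K → Fin 3 → Idl K) (p q r : Fin 3) (F : Set ℕ)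
      (ν : Fin 3 → Fin n → ℝ) (τ : Fin 3 → ℝ) (c Λ : ℝ) (σ : Pl K → ℝ),
    0 ≤ X → (∀ x ∈ E, Pt x ∧ IsP S x (P x) ∧ ht x ≤ X) → p ≠ q → q ≠ r → p ≠ r →
    (∀ j i, 0 ≤ ν j i) → (∀ j, ∑ i, ν j i ≤ X) →
    (∀ x ∈ E, ∀ j, ∀ i : Fin n, rl (ex (P x j) {(i : ℕ) + 1}) ≤ ν j i) →
    (∀ x ∈ E, ∀ j, rl (ex (P x j) {m | n < m}) ≤ τ j) →
    (∀ x ∈ E, rl (ex (P x r) F) ≤ c) →
    (∀ x ∈ E, ∀ v ∈ Spl S, |lm v r x - σ v| ≤ 1) →
    (∀ x ∈ E, Λ ≤ len (ex (P x r) F) + ∑ v ∈ Spl S, σ v) →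
    (E.card : ℝ) ≤ D * Real.exp (ε * X + c +
      1 / 2 * (2 * τ p + ∑ i, ν p i + max 0 (3 / 2 * ∑ i, ν p i - Λ)) +
      1 / 2 * (2 * τ q + ∑ i, ν q i + max 0 (3 / 2 * ∑ i, ν q i - Λ))))
    {p q r : Fin 3} {F : Finset (Option (Fin n))} (hpq : p ≠ q) (hqr : q ≠ r) (hpr : p ≠ r)
    {R δ : ℝ} (hδ : 1 / ((n : ℝ) + 1) ≤ δ)
    (hR : rl (ex (P x₀ r) (Unn n F)) + 1 / 2 * (rl (P x₀ p) +
        max 0 (3 / 2 * rl (P x₀ p) -
          (len (ex (P x₀ r) (Unn n F)) + ∑ v ∈ Spl S, lm v r x₀))) +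
      1 / 2 * (rl (P x₀ q) +
        max 0 (3 / 2 * rl (P x₀ q) -
          (len (ex (P x₀ r) (Unn n F)) + ∑ v ∈ Spl S, lm v r x₀))) ≤ R) :
    (E.card : ℝ) ≤ D * Real.exp (ε * (Y + cS S + n) + R + 2 * (δ * (Y + cS S)) +
      (4 * n + 4 + (n + 1) * (n + 1))) := by
  obtain ⟨hpt0, hP0, _⟩ := h.pt x₀ h.mem
  have hn0 : (0 : ℝ) ≤ n := Nat.cast_nonneg n
  have hY := h.hY
  have hcS := cS_nonneg S
  have hht := ht_nonneg x₀
  -- sums of the exact classes
  have hsum : ∀ j, ∑ i : Fin n, (rl (ex (P x₀ j) {(i : ℕ) + 1}) + 1) =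
      rl (P x₀ j) - rl (ex (P x₀ j) {m | n < m}) + n := by
    intro j
    rw [Finset.sum_add_distrib, Finset.sum_const, Finset.card_univ, Fintype.card_fin,
      nsmul_eq_mul, mul_one, rl_cn_sum n (P x₀ j)]
    ring
  have hlen : ∀ j, len (P x₀ j) ≤ Y + cS S := by
    intro j
    have := len_le hpt0 hP0 j
    linarith
  have htail : ∀ j, rl (ex (P x₀ j) {m | n < m}) ≤ δ * (Y + cS S) := by
    intro j
    have h1 := le_len_of (P x₀ j) {m | n < m} (n + 1) (fun m hm => hm)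
    push_cast at h1
    have h2 := len_ex_le (P x₀ j) {m | n < m}
    have h3 : ((n : ℝ) + 1) * rl (ex (P x₀ j) {m | n < m}) ≤ Y + cS S := by
      have := hlen j
      linarith
    have h4 : rl (ex (P x₀ j) {m | n < m}) ≤ 1 / ((n : ℝ) + 1) * (Y + cS S) := by
      rw [one_div, inv_mul_eq_div, le_div_iff₀ (by positivity)]
      linarith
    refine h4.trans (mul_le_mul_of_nonneg_right hδ ?_)
    linarith
  have hmain := hEST (Y + cS S + n) E P p q r (Unn n F)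
    (fun j i => rl (ex (P x₀ j) {(i : ℕ) + 1}) + 1)
    (fun j => rl (ex (P x₀ j) {m | n < m}) + 1)
    (rl (ex (P x₀ r) (Unn n F)) + (n + 1))
    (len (ex (P x₀ r) (Unn n F)) + ∑ v ∈ Spl S, lm v r x₀ - (n + 1) * (n + 1))
    (fun v => lm v r x₀)
    (by linarith)
    (fun x hx => by
      obtain ⟨h1, h2, h3⟩ := h.pt x hx
      exact ⟨h1, h2, by linarith⟩)
    hpq hqr hpr
    (fun j i => by
      have := rl_nonneg (ex (P x₀ j) {(i : ℕ) + 1})
      linarith)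
    (fun j => by
      rw [hsum j]
      have h1 := rl_nonneg (ex (P x₀ j) {m | n < m})
      have h2 := rl_le_len (P x₀ j)
      have h3 := hlen j
      linarith)
    (fun x hx j i => by
      have h1 := (abs_le.mp ((h.close x hx).one j i)).2
      linarith)
    (fun x hx j => by
      have h1 := (abs_le.mp ((h.close x hx).tail j)).2
      linarith)
    (fun x hx => h.rl_le hx r F)
    (fun x hx v hv => (h.close x hx).hlm r v hv)
    (fun x hx => by
      have h1 := h.le_len hx r F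
      linarith)
  refine hmain.trans (mul_le_mul_of_nonneg_left (Real.exp_le_exp.mpr ?_) hD)
  rw [hsum p, hsum q]
  set Λ : ℝ := len (ex (P x₀ r) (Unn n F)) + ∑ v ∈ Spl S, lm v r x₀ with hΛ
  set A : ℝ := (n + 1) * (n + 1) with hA
  have hA0 : 0 ≤ A := by positivity
  have key : ∀ j, max 0 (3 / 2 * (rl (P x₀ j) - rl (ex (P x₀ j) {m | n < m}) + n) - (Λ - A)) ≤
      max 0 (3 / 2 * rl (P x₀ j) - Λ) + (3 / 2 * n + A) := by
    intro j
    have h1 := rl_nonneg (ex (P x₀ j) {m | n < m})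
    have h4 := le_max_left 0 (3 / 2 * rl (P x₀ j) - Λ)
    have h5 := le_max_right 0 (3 / 2 * rl (P x₀ j) - Λ)
    refine max_le ?_ ?_
    · positivity
    · linarith
  have k1 := key p
  have k2 := key q
  have t1 := htail p
  have t2 := htail q
  have r1 := rl_nonneg (ex (P x₀ p) {m | n < m})
  have r2 := rl_nonneg (ex (P x₀ q) {m | n < m})
  linarith

end Cases

end Pool.Agent.W17.WK
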