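import Pool.Agent.W108.AK.FIN
import Pool.Agent.W17.WK.Cell

set_option autoImplicit false
set_option linter.unusedSectionVars false

/-!
Final assembly for the points with `rad ≤ lam h + c₀`.
-/

namespace Pool.Agent.W17.WK

open NumberField IsDedekindDomain Finset Pool.Agent.H691R3 Pool.Agent.W223.AK Pool.Agent.W108.AK

variable {K : Type} [Field K] [NumberField K]

/-- the final count (unnormalised heights) -/
def StmtF (K : Type) [Field K] [NumberField K] (lam e : ℝ) : Prop :=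
  ∀ (T : Finset (Pr K)) (c₀ δ : ℝ), 0 < δ → ∃ D : ℝ, 0 < D ∧ ∀ (X : ℝ) (E : Finset K), 0 ≤ X →
    (∀ x ∈ E, Pt x ∧ ht x ≤ X ∧ ∃ P : Fin 3 → Idl K, IsP T x P ∧
      rl (P 0) + rl (P 1) + rl (P 2) ≤ lam * ht x + c₀) →
    (E.card : ℝ) ≤ D * Real.exp ((e + δ) * X)

/-- the bound for a cell -/
theorem cellN (lam e : ℝ) (hlam : 0 ≤ lam) (he : 0 ≤ e) (S : Finset (Pr K)) (n : ℕ)
    (hn : 1 ≤ n) (hSG : SGood S n)
    (hE : StmtEST S) (hDB : StmtDB S) (hM : StmtMB S) (Cc : ℝ) (hCc : 0 ≤ Cc)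
    (hcert : ∀ (X η : ℝ)
      (v w : Fin 3 → Option (Fin n) → ℝ) (s : Fin 3 → ℝ), 0 ≤ X → 0 ≤ η →
      Poly n lam X η v w s →
      (∃ p q r : Fin 3, p ≠ q ∧ q ≠ r ∧ p ≠ r ∧ tot v p univ + tot v q univ ≤ e * X + Cc * η) ∨
      (∃ (p q r : Fin 3) (F : Finset (Option (Fin n))), p ≠ q ∧ q ≠ r ∧ p ≠ r ∧
        tot v r F + 1 / 2 * (tot v p univ + max 0 (3 / 2 * tot v p univ - (tot w r F + s r))) +
          1 / 2 * (tot v q univ + max 0 (3 / 2 * tot v q univ - (tot w r F + s r))) ≤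
          e * X + Cc * η) ∨
      (∃ (p q r : Fin 3) (i : Fin n), p ≠ q ∧ q ≠ r ∧ p ≠ r ∧ 1 ≤ (i : ℕ) ∧
        tot v p {some i}ᶜ + tot v q univ ≤ e * X + Cc * η ∧
        (tot v p {some i}ᶜ + tot v q univ) / 2 + tot v r univ ≤ e * X + Cc * η))
    (c₀ δ : ℝ) (hδ : 0 < δ) (hnδ : 1 / ((n : ℝ) + 1) ≤ δ / 8) :
    ∃ D : ℝ, 0 < D ∧ ∀ (P : K → Fin 3 → Idl K) (E : Finset K) (X : ℝ), 0 ≤ X →
      (∀ x ∈ E, Pt x ∧ IsP S x (P x) ∧ ht x ≤ X ∧
        rl (P x 0) + rl (P x 1) + rl (P x 2) ≤ lam * ht x + c₀) →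
      (∀ x ∈ E, ∀ y ∈ E, CloseN S n P x y) →
      (E.card : ℝ) ≤ D * Real.exp ((e + δ / 2) * X) := by
  classical
  have hε : 0 < δ / 8 := by positivity
  have hn0 : (0 : ℝ) ≤ n := Nat.cast_nonneg n
  obtain ⟨DE, hDE, hest⟩ := hE n hSG (δ / 8) hε
  have hdb : ∀ i : Fin n, ∃ D : ℝ, 0 < D ∧ (1 ≤ (i : ℕ) →
      ∀ (X : ℝ) (E : Finset K) (P : K → Fin 3 → Idl K) (p q r : Fin 3) (c₁ c₂ c₃ : ℝ),
      0 ≤ X → (∀ x ∈ E, Pt x ∧ IsP S x (P x) ∧ ht x ≤ X) → p ≠ q → q ≠ r → p ≠ r →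
      (∀ x ∈ E, rl (ex (P x p) {m | m ≠ (i : ℕ) + 1}) ≤ c₁) →
      (∀ x ∈ E, rl (P x q) ≤ c₂) → (∀ x ∈ E, rl (P x r) ≤ c₃) →
      (E.card : ℝ) ≤ D * Real.exp (δ / 8 * X) *
        (Real.exp (c₁ + c₂) + Real.exp ((c₁ + c₂) / 2 + c₃))) := by
    intro i
    by_cases hi : 1 ≤ (i : ℕ)
    · obtain ⟨D, hD, h⟩ := hDB ((i : ℕ) + 1) (δ / 8) (by omega) hε
      exact ⟨D, hD, fun _ => h⟩
    · exact ⟨1, one_pos, fun h => absurd h hi⟩
  choose Dd hDd hdb using hdb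
  have hSG1 : SGood S 1 := fun i h1 h2 => hSG i h1 (h2.trans hn)
  obtain ⟨DM, hDM, hmb⟩ := hM 1 (δ / 8) le_rfl hSG1 hε
  set D0 : ℝ := DE + 2 * ∑ i, Dd i + DM with hD0
  have hDdle : ∀ i, Dd i ≤ ∑ i, Dd i := fun i =>
    Finset.single_le_sum (f := Dd) (fun j _ => (hDd j).le) (Finset.mem_univ i)
  have hDs : 0 ≤ ∑ i, Dd i := Finset.sum_nonneg fun j _ => (hDd j).le
  have hD00 : 0 < D0 := by positivity
  have hcS := cS_nonneg S
  set η : ℝ := 1 + cS S + |c₀| with hη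
  have hη0 : 0 ≤ η := by positivity
  set K0 : ℝ := Cc * η + 2 * (n + 1) + (4 + cS S) + δ * (cS S + n) +
    (4 * n + 4 + (n + 1) * (n + 1)) with hK0
  have hK00 : 0 ≤ K0 := by positivity
  refine ⟨D0 * Real.exp (K0 + (e + δ / 2)), by positivity, ?_⟩
  intro P E X hX hEx hcl
  rcases E.eq_empty_or_nonempty with rfl | ⟨x₀, hx₀⟩
  · rw [Finset.card_empty, Nat.cast_zero]
    positivity
  obtain ⟨hpt0, hP0, hht0, hrl0⟩ := hEx x₀ hx₀
  have hcell : IsCellN S n lam c₀ (ht x₀ + 1) E P x₀ := by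
    refine ⟨hx₀, rfl, fun x hx => ?_, hrl0, fun x hx => hcl x hx x₀ hx₀⟩
    obtain ⟨h1, h2, _⟩ := hEx x hx
    have h3 := (abs_le.mp (hcl x hx x₀ hx₀).hht).2
    exact ⟨h1, h2, by linarith⟩
  set Y : ℝ := ht x₀ + 1 with hY
  have hhtn := ht_nonneg x₀
  have hY0 : 0 ≤ Y := hcell.Y_nonneg
  suffices hmain : (E.card : ℝ) ≤ D0 * Real.exp (K0 + (e + δ / 2) * Y) by
    refine hmain.trans ?_
    rw [mul_assoc, ← Real.exp_add]
    refine mul_le_mul_of_nonneg_left (Real.exp_le_exp.mpr ?_) hD00.le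
    have h1 : (e + δ / 2) * Y ≤ (e + δ / 2) * (X + 1) :=
      mul_le_mul_of_nonneg_left (by linarith) (by positivity)
    linarith
  -- the certificate
  set s : Fin 3 → ℝ := fun l => ∑ v ∈ Spl S, lm v l x₀ with hs
  have hpoly : Poly n lam Y η (fun l i => rl (ex (P x₀ l) (cn n i)))
      (fun l i => len (ex (P x₀ l) (cn n i))) s := by
    refine ⟨fun l i => rl_nonneg _, fun l i => ?_, fun l => ?_, fun l => ?_, fun l => ?_, ?_⟩
    · show len (ex (P x₀ l) {(i : ℕ) + 1}) = _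
      rw [len_single]
      push_cast
      rfl
    · have h1 := le_len_of (P x₀ l) (cn n none) (n + 1) (fun m hm => by
        have : n < m := hm
        omega)
      push_cast at h1
      exact h1
    · have h1 := sum_lm_ge (S := S) hpt0 l
      have h2 := abs_nonneg c₀
      have h3 : s l = ∑ v ∈ Spl S, lm v l x₀ := rfl
      rw [h3]
      linarith
    · rw [tot_w_eq, exn_univ]
      have h1 := sum_lm hpt0 hP0 l
      have h3 : s l = ∑ v ∈ Spl S, lm v l x₀ := rfl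
      rw [h3, h1, hY]
      have h2 := abs_nonneg c₀
      have h4 : ht x₀ - (ht x₀ + 1) = -1 := by ring
      rw [h4, abs_neg, abs_one]
      linarith
    · rw [tot_v_eq, tot_v_eq, tot_v_eq, exn_univ, exn_univ, exn_univ]
      have h2 := le_abs_self c₀
      have h3 : lam * ht x₀ ≤ lam * Y := mul_le_mul_of_nonneg_left (by linarith) hlam
      linarith
  have hc := hcert Y η _ _ s hY0 hη0 hpoly
  simp only [tot_v_eq, tot_w_eq, exn_univ] at hc
  have h9 : (e + δ / 2) * Y = e * Y + δ * Y / 2 := by ring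
  have h3'' : 0 ≤ δ * Y := by positivity
  have h3 : 0 ≤ δ * cS S := by positivity
  have h3' : 0 ≤ δ * (n : ℝ) := by positivity
  have h6 : K0 = Cc * η + 2 * (n + 1) + (4 + cS S) + (δ * cS S + δ * n) +
      (4 * n + 4 + (n + 1) * (n + 1)) := by rw [hK0]; ring
  have hA0 : (0 : ℝ) ≤ ((n : ℝ) + 1) * ((n : ℝ) + 1) := by positivity
  rcases hc with ⟨p, q, r, hpq, hqr, hpr, hin⟩ |
    ⟨p, q, r, F, hpq, hqr, hpr, hin⟩ | ⟨p, q, r, i, hpq, hqr, hpr, hi1, hin1, hin2⟩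
  · have h1 := caseN_T hcell hDM.le hmb hpq hqr hpr hin
    refine h1.trans ?_
    have h2 : DM ≤ D0 := by linarith
    refine mul_le_mul h2 (Real.exp_le_exp.mpr ?_) (Real.exp_pos _).le hD00.le
    have h4 : δ / 8 * Y = (δ * Y) / 8 := by ring
    rw [h9, h6, h4]
    linarith
  · have h1 := caseN_S hcell hDE.le hest hpq hqr hpr hnδ hin
    refine h1.trans ?_
    have h2 : DE ≤ D0 := by linarith
    refine mul_le_mul h2 (Real.exp_le_exp.mpr ?_) (Real.exp_pos _).le hD00.le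
    have h7 : δ / 8 * (Y + cS S + n) = (δ * Y) / 8 + (δ * cS S) / 8 + (δ * n) / 8 := by ring
    have h8 : 2 * (δ / 8 * (Y + cS S)) = (δ * Y) / 4 + (δ * cS S) / 4 := by ring
    rw [h6, h7, h8, h9]
    linarith
  · have h1 := caseN_D hcell (hDd i).le (hdb i hi1) hpq hqr hpr hin1 hin2
    refine h1.trans ?_
    have h2 : 2 * Dd i ≤ D0 := by
      have := hDdle i
      linarith
    refine mul_le_mul h2 (Real.exp_le_exp.mpr ?_) (Real.exp_pos _).le hD00.le
    have h4 : δ / 8 * Y = (δ * Y) / 8 := by ring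
    rw [h9, h6, h4]
    linarith

/-- the functions whose integral parts define the cells -/
noncomputable def cfN (S : Finset (Pr K)) (n : ℕ) (P : K → Fin 3 → Idl K) :
    (Unit ⊕ (Fin 3 × (Fin n ⊕ (Bool ⊕ {v // v ∈ Spl S})))) → K → ℝ
  | Sum.inl _, x => ht x
  | Sum.inr (l, Sum.inl i), x => rl (ex (P x l) {(i : ℕ) + 1})
  | Sum.inr (l, Sum.inr (Sum.inl true)), x => rl (ex (P x l) {m | n < m})
  | Sum.inr (l, Sum.inr (Sum.inl false)), x => len (ex (P x l) {m | n < m})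
  | Sum.inr (l, Sum.inr (Sum.inr v)), x => lm v.1 l x

theorem finN {K : Type} [Field K] [NumberField K] (lam e : ℝ) (hlam : 0 ≤ lam) (he : 0 ≤ e)
    (hU : StmtUNI K)
    (hE : ∀ (S : Finset (Pr K)) (w : Pr K → K) (C : ℝ), Unif S w C → StmtEST S)
    (hD : ∀ (S : Finset (Pr K)) (w : Pr K → K) (C : ℝ), Unif S w C → StmtDB S)
    (hM : ∀ S : Finset (Pr K), StmtMB S) (hC : StmtC lam e) : StmtF K lam e := by
  classical
  intro T c₀ δ hδ
  obtain ⟨n₀, Cc, hCc, hcert⟩ := hC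
  -- the number of exact classes
  obtain ⟨n, hn, hnn, hnδ⟩ : ∃ n : ℕ, 1 ≤ n ∧ n₀ ≤ n ∧ 1 / ((n : ℝ) + 1) ≤ δ / 8 := by
    refine ⟨max (max 1 n₀) ⌈8 / δ⌉₊, (le_max_left 1 n₀).trans (le_max_left _ _),
      (le_max_right 1 n₀).trans (le_max_left _ _), ?_⟩
    have h1 : 8 / δ ≤ ((max (max 1 n₀) ⌈8 / δ⌉₊ : ℕ) : ℝ) + 1 := by
      have h2 := Nat.le_ceil (8 / δ)
      have h3 : ((⌈8 / δ⌉₊ : ℕ) : ℝ) ≤ ((max (max 1 n₀) ⌈8 / δ⌉₊ : ℕ) : ℝ) := by
        exact_mod_cast le_max_right _ _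
      linarith
    have h2 : 0 < 8 / δ := by positivity
    have h3 : 1 / (((max (max 1 n₀) ⌈8 / δ⌉₊ : ℕ) : ℝ) + 1) ≤ 1 / (8 / δ) :=
      one_div_le_one_div_of_le h2 h1
    rwa [one_div_div] at h3
  -- the set of special primes
  have hfin : ∀ i : ℕ, {v : Pr K | 1 ≤ i ∧ fv v (i : K) ≠ 1}.Finite := by
    intro i
    by_cases hi : 1 ≤ i
    · refine (fv_support_finite (K := K) (x := (i : K)) ?_).subset fun v hv => hv.2
      exact_mod_cast (by omega : i ≠ 0)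
    · refine Set.Finite.subset Set.finite_empty fun v hv => absurd hv.1 hi
  obtain ⟨S, hS, w, C, hw⟩ := hU (T ∪ (Finset.range (n + 1)).biUnion fun i => (hfin i).toFinset)
  have hTS : T ⊆ S := Finset.subset_union_left.trans hS
  have hSG : SGood S n := by
    intro i h1 h2 v hv
    by_contra hcon
    apply hv
    apply hS
    rw [Finset.mem_union, Finset.mem_biUnion]
    right
    exact ⟨i, Finset.mem_range.mpr (by omega), by
      rw [Set.Finite.mem_toFinset]; exact ⟨h1, hcon⟩⟩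
  obtain ⟨D1, hD1, hcell⟩ := cellN lam e hlam he S n hn hSG (hE S w C hw) (hD S w C hw) (hM S)
    Cc hCc (hcert n hnn) c₀ δ hδ hnδ
  obtain ⟨D2, hD2, hcount⟩ := cells (Unit ⊕ (Fin 3 × (Fin n ⊕ (Bool ⊕ {v // v ∈ Spl S}))))
    (cS S) (δ / 2) (cS_nonneg S) (by positivity)
  refine ⟨D2 * D1, by positivity, ?_⟩
  intro X E hX hEx
  have hex : ∀ x : K, ∃ P : Fin 3 → Idl K, x ∈ E →
      (IsP S x P ∧ rl (P 0) + rl (P 1) + rl (P 2) ≤ lam * ht x + c₀) := by
    intro x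
    by_cases hx : x ∈ E
    · obtain ⟨_, _, P, hP, hrl⟩ := hEx x hx
      refine ⟨fun l => (P l).filter (fun v => v ∉ S), fun _ => ⟨restrict_isP hTS hP, ?_⟩⟩
      have h0 := rl_filter_le S (P 0)
      have h1 := rl_filter_le S (P 1)
      have h2 := rl_filter_le S (P 2)
      linarith
    · exact ⟨fun _ => 0, fun h => absurd h hx⟩
  choose P hP using hex
  have hmain := hcount K (cfN S n P) X E hX ?_ (D1 * Real.exp ((e + δ / 2) * X)) (by positivity) ?_
  · refine hmain.trans (le_of_eq ?_)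
    have h1 : (e + δ) * X = δ / 2 * X + (e + δ / 2) * X := by ring
    rw [h1, Real.exp_add]
    ring
  · intro x hx j
    obtain ⟨hpt, hht, _⟩ := hEx x hx
    obtain ⟨hPx, _⟩ := hP x hx
    have hcS := cS_nonneg S
    have hlen : ∀ l, len (P x l) ≤ X + cS S := fun l => by
      have := len_le hpt hPx l
      linarith
    rcases j with _ | ⟨l, i | (b | v)⟩
    · show -cS S ≤ ht x ∧ ht x ≤ X + cS S
      have := ht_nonneg x
      constructor <;> linarith
    · show -cS S ≤ rl (ex (P x l) {(i : ℕ) + 1}) ∧ rl (ex (P x l) {(i : ℕ) + 1}) ≤ X + cS S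
      have h1 := rl_nonneg (ex (P x l) {(i : ℕ) + 1})
      have h2 := rl_ex_le (P x l) {(i : ℕ) + 1}
      have h3 := hlen l
      constructor <;> linarith
    · rcases b with _ | _
      · show -cS S ≤ len (ex (P x l) {m | n < m}) ∧ len (ex (P x l) {m | n < m}) ≤ X + cS S
        have h1 := len_nonneg (ex (P x l) {m | n < m})
        have h2 := len_ex_le (P x l) {m | n < m}
        have h3 := hlen l
        constructor <;> linarith
      · show -cS S ≤ rl (ex (P x l) {m | n < m}) ∧ rl (ex (P x l) {m | n < m}) ≤ X + cS S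
        have h1 := rl_nonneg (ex (P x l) {m | n < m})
        have h2 := rl_ex_le (P x l) {m | n < m}
        have h3 := hlen l
        constructor <;> linarith
    · show -cS S ≤ lm v.1 l x ∧ lm v.1 l x ≤ X + cS S
      have h1 := lm_ge hpt v.1 l
      have h2 := lm_le hpt v.2 l
      have h3 : mt v.1 * Real.log 2 ≤ cS S :=
        Finset.single_le_sum (f := fun u : Pl K => mt u * Real.log 2)
          (fun u _ => mul_nonneg (mt_pos u).le (Real.log_nonneg (by norm_num))) v.2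
      constructor <;> linarith
  · intro G hGE hG
    refine hcell P G X hX ?_ ?_
    · intro x hx
      obtain ⟨hpt, hht, _⟩ := hEx x (hGE hx)
      obtain ⟨hPx, hrl⟩ := hP x (hGE hx)
      exact ⟨hpt, hPx, hht, hrl⟩
    · intro x hx y hy
      exact ⟨hG (Sum.inl ()) x hx y hy,
        fun l i => hG (Sum.inr (l, Sum.inl i)) x hx y hy,
        fun l => hG (Sum.inr (l, Sum.inr (Sum.inl true))) x hx y hy,
        fun l => hG (Sum.inr (l, Sum.inr (Sum.inl false))) x hx y hy,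
        fun l v hv => hG (Sum.inr (l, Sum.inr (Sum.inr ⟨v, hv⟩))) x hx y hy⟩

end Pool.Agent.W17.WK
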